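import Mathlib

set_option autoImplicit false

namespace Pool.Agent.Helper869.KDet

open Cardinal Set Topology

noncomputable section

/-- a set of cardinality `ℵ_(i+1)` -/
def X (i : ℕ) : Type := (Cardinal.aleph ((i + 1 : ℕ) : Ordinal)).out

lemma mk_X (i : ℕ) : #(X i) = Cardinal.aleph ((i + 1 : ℕ) : Ordinal) := Cardinal.mk_out _

/-- the small cardinal `ℵ_i` -/
def sm (i : ℕ) : Cardinal.{0} := Cardinal.aleph (i : Ordinal)

lemma aleph0_le_sm (i : ℕ) : ℵ₀ ≤ sm i := Cardinal.aleph0_le_aleph _

lemma sm_lt_mk (i : ℕ) : sm i < #(X i) := by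
  rw [mk_X, sm, Cardinal.aleph_lt_aleph]
  exact_mod_cast Nat.lt_succ_self i

lemma mk_X_le_sm {i j : ℕ} (h : i < j) : #(X i) ≤ sm j := by
  rw [mk_X, sm, Cardinal.aleph_le_aleph]
  exact_mod_cast h

/-- the topology on `X i`: a set is open iff it is empty or has a complement of size at most `ℵ_i` -/
instance instTopX (i : ℕ) : TopologicalSpace (X i) where
  IsOpen U := U = ∅ ∨ #(Uᶜ : Set (X i)) ≤ sm i
  isOpen_univ := by
    right
    simp
  isOpen_inter := by
    rintro s t (rfl | hs) (rfl | ht)
    · left; simp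
    · left; simp
    · left; simp
    · right
      rw [Set.compl_inter]
      refine (Cardinal.mk_union_le _ _).trans ?_
      exact Cardinal.add_le_of_le (aleph0_le_sm i) hs ht
  isOpen_sUnion := by
    intro S hS
    by_cases h : ∃ s ∈ S, s ≠ ∅
    · obtain ⟨s, hs, hne⟩ := h
      right
      rcases hS s hs with h0 | h1
      · exact absurd h0 hne
      · refine (Cardinal.mk_le_mk_of_subset ?_).trans h1
        exact Set.compl_subset_compl.mpr (Set.subset_sUnion_of_mem hs)
    · left
      push Not at h
      exact Set.sUnion_eq_empty.mpr h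

/-- `X i` with a generic point `none` added -/
def S (i : ℕ) : Type := Option (X i)

/-- the topology on `S i` -/
instance instTopS (i : ℕ) : TopologicalSpace (S i) where
  IsOpen U := U = ∅ ∨ ((none : Option (X i)) ∈ U ∧ #(Uᶜ : Set (S i)) ≤ sm i)
  isOpen_univ := by
    right
    refine ⟨trivial, ?_⟩
    simp
  isOpen_inter := by
    rintro s t (rfl | hs) (rfl | ht)
    · left; simp
    · left; simp
    · left; simp
    · right
      refine ⟨⟨hs.1, ht.1⟩, ?_⟩
      rw [Set.compl_inter]
      refine (Cardinal.mk_union_le _ _).trans ?_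
      exact Cardinal.add_le_of_le (aleph0_le_sm i) hs.2 ht.2
  isOpen_sUnion := by
    intro T hT
    by_cases h : ∃ s ∈ T, s ≠ ∅
    · obtain ⟨s, hs, hne⟩ := h
      right
      rcases hT s hs with h0 | h1
      · exact absurd h0 hne
      · refine ⟨Set.mem_sUnion_of_mem h1.1 hs, (Cardinal.mk_le_mk_of_subset ?_).trans h1.2⟩
        exact Set.compl_subset_compl.mpr (Set.subset_sUnion_of_mem hs)
    · left
      push Not at h
      exact Set.sUnion_eq_empty.mpr h

/-- the generic point -/
def gen (i : ℕ) : S i := (none : Option (X i))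
/-- the inclusion of `X i` in `S i` -/
def inc (i : ℕ) (x : X i) : S i := (some x : Option (X i))

lemma inc_inj (i : ℕ) : Function.Injective (inc i) := Option.some_injective _
lemma inc_ne_gen (i : ℕ) (x : X i) : inc i x ≠ gen i := Option.some_ne_none x
lemma ne_gen_iff {i : ℕ} {s : S i} : s ≠ gen i ↔ ∃ x, s = inc i x := by
  constructor
  · intro h
    obtain ⟨x, hx⟩ := Option.ne_none_iff_exists'.mp h
    exact ⟨x, hx⟩
  · rintro ⟨x, rfl⟩
    exact inc_ne_gen i x

lemma isOpen_X_iff {i : ℕ} {U : Set (X i)} : IsOpen U ↔ U = ∅ ∨ #(Uᶜ : Set (X i)) ≤ sm i := Iff.rfl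
lemma isOpen_S_iff {i : ℕ} {U : Set (S i)} :
    IsOpen U ↔ U = ∅ ∨ (gen i ∈ U ∧ #(Uᶜ : Set (S i)) ≤ sm i) := Iff.rfl

lemma isClosed_X_of_small {i : ℕ} {C : Set (X i)} (h : #C ≤ sm i) : IsClosed C := by
  rw [← isOpen_compl_iff, isOpen_X_iff, compl_compl]
  exact Or.inr h

lemma small_or_univ {i : ℕ} {C : Set (X i)} (h : IsClosed C) : C = Set.univ ∨ #C ≤ sm i := by
  rw [← isOpen_compl_iff, isOpen_X_iff, compl_compl] at h
  rcases h with h | h
  · left; exact Set.compl_empty_iff.mp h
  · exact Or.inr h

lemma isClosed_S_of_small {i : ℕ} {C : Set (S i)} (h0 : gen i ∉ C) (h : #C ≤ sm i) :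
    IsClosed C := by
  rw [← isOpen_compl_iff, isOpen_S_iff, compl_compl]
  exact Or.inr ⟨h0, h⟩

lemma continuous_inc (i : ℕ) : Continuous (inc i) := by
  refine ⟨fun U hU => ?_⟩
  rw [isOpen_S_iff] at hU
  rcases hU with rfl | ⟨h1, h2⟩
  · simp
  · rw [isOpen_X_iff]
    right
    rw [← Set.preimage_compl]
    exact (Cardinal.mk_preimage_of_injective _ _ (inc_inj i)).trans h2

lemma singleton_small (i : ℕ) {α : Type} (x : α) : #({x} : Set α) ≤ sm i := by
  rw [Cardinal.mk_singleton]
  exact (Cardinal.one_le_aleph0).trans (aleph0_le_sm i)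

instance instT0X (i : ℕ) : T0Space (X i) := by
  have : T1Space (X i) := ⟨fun x => isClosed_X_of_small (singleton_small i x)⟩
  infer_instance

lemma isClosed_inc (i : ℕ) (x : X i) : IsClosed ({inc i x} : Set (S i)) :=
  isClosed_S_of_small (fun h => inc_ne_gen i x (by simpa using h.symm)) (singleton_small i _)

instance instT0S (i : ℕ) : T0Space (S i) := by
  refine ⟨fun x y hxy => ?_⟩
  by_contra hne
  have key : ∀ a b : S i, a ≠ b → Inseparable a b → a ≠ gen i → False := by
    intro a b hab hi ha
    obtain ⟨u, rfl⟩ := ne_gen_iff.mp ha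
    have h1 := (hi.mem_closed_iff (isClosed_inc i u)).mp rfl
    exact hab (by simpa using h1.symm)
  by_cases hx : x = gen i
  · exact key y x (Ne.symm hne) hxy.symm (fun h => hne (hx.trans h.symm))
  · exact key x y hne hxy hx

lemma irreducible_X (i : ℕ) {U V : Set (X i)} (hU : IsOpen U) (hV : IsOpen V)
    (hU' : U.Nonempty) (hV' : V.Nonempty) : (U ∩ V).Nonempty := by
  rcases isOpen_X_iff.mp (hU.inter hV) with h | h
  · exfalso
    rcases isOpen_X_iff.mp hU with h1 | h1
    · exact hU'.ne_empty h1
    rcases isOpen_X_iff.mp hV with h2 | h2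
    · exact hV'.ne_empty h2
    have h3 : #(univ : Set (X i)) ≤ sm i := by
      have : (univ : Set (X i)) = Uᶜ ∪ Vᶜ := by
        rw [← Set.compl_inter, h, Set.compl_empty]
      rw [this]
      exact (Cardinal.mk_union_le _ _).trans (Cardinal.add_le_of_le (aleph0_le_sm i) h1 h2)
    rw [Cardinal.mk_univ] at h3
    exact absurd h3 (not_le.mpr (sm_lt_mk i))
  · by_contra hcon
    rw [Set.not_nonempty_iff_eq_empty] at hcon
    rw [hcon, Set.compl_empty, Cardinal.mk_univ] at h
    exact absurd h (not_le.mpr (sm_lt_mk i))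

instance instNonemptyX (i : ℕ) : Nonempty (X i) := by
  rw [← Cardinal.mk_ne_zero_iff]
  exact (lt_of_le_of_lt zero_le (sm_lt_mk i)).ne'

lemma isIrreducible_univ_X (i : ℕ) : IsIrreducible (univ : Set (X i)) := by
  refine ⟨univ_nonempty, ?_⟩
  intro U V hU hV hU' hV'
  simp only [univ_inter] at *
  exact irreducible_X i hU hV hU' hV'

lemma isIrreducible_univ_pi : IsIrreducible (univ : Set (∀ i, X i)) := by
  classical
  refine ⟨univ_nonempty, ?_⟩
  rintro U V hU hV ⟨x, -, hx⟩ ⟨y, -, hy⟩
  obtain ⟨I, u, hu, huU⟩ := isOpen_pi_iff.mp hU x hx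
  obtain ⟨J, v, hv, hvV⟩ := isOpen_pi_iff.mp hV y hy
  have hz : ∀ i, ∃ z : X i, (i ∈ I → z ∈ u i) ∧ (i ∈ J → z ∈ v i) := by
    intro i
    by_cases hi : i ∈ I
    · by_cases hj : i ∈ J
      · obtain ⟨z, hz1, hz2⟩ := irreducible_X i (hu i hi).1 (hv i hj).1 ⟨_, (hu i hi).2⟩
          ⟨_, (hv i hj).2⟩
        exact ⟨z, fun _ => hz1, fun _ => hz2⟩
      · exact ⟨x i, fun _ => (hu i hi).2, fun h => absurd h hj⟩
    · by_cases hj : i ∈ J
      · exact ⟨y i, fun h => absurd h hi, fun _ => (hv i hj).2⟩
      · exact ⟨x i, fun h => absurd h hi, fun h => absurd h hj⟩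
  choose z hz1 hz2 using hz
  refine ⟨z, mem_univ _, huU ?_, hvV ?_⟩
  · intro i hi; exact hz1 i hi
  · intro i hi; exact hz2 i hi

/-- The non-sober space: points of the product of the `S i` with finitely many generic
coordinates. -/
def Y0 : Type := {y : ∀ i, S i // {i | y i = gen i}.Finite}

instance instTopY0 : TopologicalSpace Y0 := instTopologicalSpaceSubtype

instance instT0Y0 : T0Space Y0 := by
  unfold Y0
  infer_instance

/-- constructor of points of `Y0` -/
def mkY (z : ∀ i, S i) (h : {i | z i = gen i}.Finite) : Y0 := ⟨z, h⟩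

/-- coordinate maps of `Y0` -/
def co (j : ℕ) (y : Y0) : S j := y.1 j

lemma continuous_co (j : ℕ) : Continuous (co j) :=
  (continuous_apply j).comp continuous_subtype_val

lemma continuous_to_Y0 {Z : Type} [TopologicalSpace Z] {f : Z → Y0}
    (h : ∀ j, Continuous (fun z => co j (f z))) : Continuous f :=
  Continuous.subtype_mk (f := fun z => (f z).1) (continuous_pi h) (fun z => (f z).2)

/-- the embedding of the product in `Y0` -/
def emb (x : ∀ i, X i) : Y0 := ⟨fun i => inc i (x i), by
  have : {i | inc i (x i) = gen i} = (∅ : Set ℕ) := by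
    ext i
    constructor
    · intro h; exact (inc_ne_gen i _ h).elim
    · intro h; exact h.elim
  rw [this]
  exact Set.finite_empty⟩

lemma continuous_emb : Continuous emb := by
  refine continuous_to_Y0 (fun j => ?_)
  exact (continuous_inc j).comp (continuous_apply j)

/-- The image of the whole product is not dense in a point closure. -/
lemma emb_not (y : Y0) : closure (emb '' Set.univ) ≠ closure {y} := by
  intro h
  -- a coordinate at which y is not generic
  have h1 : ∃ i, y.1 i ≠ gen i := by
    by_contra hcon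
    push Not at hcon
    have : {i | y.1 i = gen i} = Set.univ := by
      ext i; simp [hcon i]
    have h2 := y.2
    rw [this] at h2
    exact Set.infinite_univ h2
  obtain ⟨i, hi⟩ := h1
  obtain ⟨a, ha⟩ := ne_gen_iff.mp hi
  have h2 : ∃ x : ∀ i, X i, x i ≠ a := by
    have h3 : ∃ b : X i, b ≠ a := by
      by_contra hcon
      push Not at hcon
      have h4 : #(X i) ≤ 1 := Cardinal.le_one_iff_subsingleton.mpr
        ⟨fun p q => (hcon p).trans (hcon q).symm⟩
      exact absurd (h4.trans (Cardinal.one_le_aleph0.trans (aleph0_le_sm i)))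
        (not_le.mpr (sm_lt_mk i))
    obtain ⟨b, hb⟩ := h3
    classical
    refine ⟨Function.update (fun j => Classical.arbitrary (X j)) i b, ?_⟩
    simpa using hb
  obtain ⟨x, hx⟩ := h2
  have h3 : emb x ∈ closure ({y} : Set Y0) := by
    rw [← h]
    exact subset_closure ⟨x, trivial, rfl⟩
  have h4 : IsClosed ((co i) ⁻¹' {inc i a}) := (isClosed_inc i a).preimage (continuous_co i)
  have h5 : closure ({y} : Set Y0) ⊆ (co i) ⁻¹' {inc i a} := by
    refine closure_minimal ?_ h4
    rintro _ rfl
    exact ha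
  have h6 : co i (emb x) = inc i a := h5 h3
  exact hx (inc_inj i h6)

/-- irreducible subsets of `S j` -/
lemma dichotomy {j : ℕ} {B : Set (S j)} (hB : IsIrreducible B) :
    (∃ a : X j, B = {inc j a}) ∨ (gen j ∈ closure B ∧ (gen j ∈ B ∨ sm j < #B)) := by
  by_cases h : gen j ∉ B ∧ #B ≤ sm j
  · left
    obtain ⟨b, hb⟩ := hB.nonempty
    have hbn : b ≠ gen j := fun e => h.1 (e ▸ hb)
    obtain ⟨a, rfl⟩ := ne_gen_iff.mp hbn
    refine ⟨a, ?_⟩
    have hc1 : IsClosed ({inc j a} : Set (S j)) := isClosed_inc j a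
    have hc2 : IsClosed (B \ {inc j a}) :=
      isClosed_S_of_small (fun e => h.1 e.1) ((Cardinal.mk_le_mk_of_subset Set.sdiff_subset).trans h.2)
    have h3 := (isPreirreducible_iff_isClosed_union_isClosed.mp hB.isPreirreducible) {inc j a}
      (B \ {inc j a}) hc1 hc2 (by
        intro x hx
        by_cases hxa : x = inc j a
        · exact Or.inl hxa
        · exact Or.inr ⟨hx, hxa⟩)
    rcases h3 with h3 | h3
    · exact Set.Subset.antisymm h3 (by rintro _ rfl; exact hb)
    · exact absurd rfl (h3 hb).2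
  · right
    have h' : gen j ∈ B ∨ sm j < #B := by
      by_contra hcon
      push Not at hcon
      exact h hcon
    refine ⟨?_, h'⟩
    rw [mem_closure_iff]
    intro U hU hgU
    rcases h' with h1 | h1
    · exact ⟨gen j, hgU, h1⟩
    · rcases isOpen_S_iff.mp hU with h2 | h2
      · rw [h2] at hgU; exact hgU.elim
      · by_contra hcon
        rw [Set.not_nonempty_iff_eq_empty] at hcon
        have hsub : B ⊆ Uᶜ := by
          intro x hx hxU
          have : x ∈ U ∩ B := ⟨hxU, hx⟩
          rw [hcon] at this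
          exact this
        exact absurd ((Cardinal.mk_le_mk_of_subset hsub).trans h2.2) (not_le.mpr h1)

/-- Every continuous map from `X i` to `Y0` sends irreducible sets to sets dense in a point
closure. -/
theorem Xi_to_Y0 (i : ℕ) (f : X i → Y0) (hf : Continuous f) (A : Set (X i))
    (hA : IsIrreducible A) : ∃ y : Y0, closure (f '' A) = closure {y} := by
  classical
  have hfj : ∀ j, Continuous (fun x => co j (f x)) := fun j => (continuous_co j).comp hf
  have hirr : ∀ j, IsIrreducible ((fun x => co j (f x)) '' A) := fun j =>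
    hA.image _ (hfj j).continuousOn
  -- the generic points of the coordinates
  have hz : ∀ j, ∃ z : S j, z ∈ closure ((fun x => co j (f x)) '' A) ∧
      (∀ x ∈ A, co j (f x) ∈ closure {z}) ∧
      (z = gen j → (gen j ∈ (fun x => co j (f x)) '' A ∨ sm j < #((fun x => co j (f x)) '' A))) := by
    intro j
    rcases dichotomy (hirr j) with ⟨a, ha⟩ | ⟨h1, h2⟩
    · refine ⟨inc j a, ?_, ?_, ?_⟩
      · rw [ha]; exact subset_closure rfl
      · intro x hx
        have : co j (f x) ∈ (fun x => co j (f x)) '' A := ⟨x, hx, rfl⟩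
        rw [ha] at this
        rw [Set.mem_singleton_iff] at this
        rw [this]
        exact subset_closure rfl
      · intro h; exact absurd h (inc_ne_gen j a)
    · refine ⟨gen j, h1, ?_, fun _ => h2⟩
      intro x _
      rw [mem_closure_iff]
      intro U hU hxU
      rcases isOpen_S_iff.mp hU with h3 | h3
      · rw [h3] at hxU; exact hxU.elim
      · exact ⟨gen j, h3.1, rfl⟩
  choose z hz1 hz2 hz3 using hz
  -- finitely many generic coordinates
  have hfin : {j | z j = gen j}.Finite := by
    by_contra hinf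
    have hinf' : ({j | z j = gen j} \ (Finset.range (i + 1) : Set ℕ)).Infinite :=
      Set.Infinite.sdiff hinf (Finset.finite_toSet _)
    -- for j > i generic, the set where the coordinate is not generic is small
    have hE : ∀ j ∈ ({j | z j = gen j} \ (Finset.range (i + 1) : Set ℕ)),
        #{x : X i | co j (f x) ≠ gen j} ≤ sm i := by
      rintro j ⟨hj1, hj2⟩
      have hij : i < j := by
        simp only [Finset.coe_range, Set.mem_Iio, not_lt] at hj2
        omega
      have hg : gen j ∈ (fun x => co j (f x)) '' A := by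
        rcases hz3 j hj1 with h | h
        · exact h
        · exfalso
          have : #((fun x => co j (f x)) '' A) ≤ sm j :=
            (Cardinal.mk_image_le.trans (Cardinal.mk_set_le A)).trans (mk_X_le_sm hij)
          exact absurd this (not_le.mpr h)
      have hcl : IsClosed (Set.range (fun x => co j (f x)) \ {gen j}) := by
        refine isClosed_S_of_small (fun h => h.2 rfl) ?_
        exact ((Cardinal.mk_le_mk_of_subset Set.sdiff_subset).trans Cardinal.mk_range_le).trans
          (mk_X_le_sm hij)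
      have hpre := hcl.preimage (hfj j)
      have heq : (fun x => co j (f x)) ⁻¹' (Set.range (fun x => co j (f x)) \ {gen j}) =
          {x : X i | co j (f x) ≠ gen j} := by
        ext x
        simp
      rw [heq] at hpre
      rcases small_or_univ hpre with h | h
      · exfalso
        obtain ⟨x, _, hx⟩ := hg
        have : x ∈ {x : X i | co j (f x) ≠ gen j} := by rw [h]; trivial
        exact this hx
      · exact h
    have hU : #(⋃ j : ({j | z j = gen j} \ (Finset.range (i + 1) : Set ℕ) : Set ℕ),
        {x : X i | co j.1 (f x) ≠ gen j.1}) ≤ sm i := by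
      refine (Cardinal.mk_iUnion_le_sum_mk).trans ?_
      have hle : ∀ j : ({j | z j = gen j} \ (Finset.range (i + 1) : Set ℕ) : Set ℕ),
          #{x : X i | co j.1 (f x) ≠ gen j.1} ≤ (fun _ => sm i) j := fun j => hE j.1 j.2
      refine (Cardinal.sum_le_sum _ (fun _ => sm i) hle).trans ?_
      rw [Cardinal.sum_const']
      exact Cardinal.mul_le_of_le (aleph0_le_sm i) ((Cardinal.mk_le_aleph0).trans (aleph0_le_sm i))
        le_rfl
    have hne : ∃ x : X i, x ∉ (⋃ j : ({j | z j = gen j} \ (Finset.range (i + 1) : Set ℕ) : Set ℕ),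
        {x : X i | co j.1 (f x) ≠ gen j.1}) := by
      by_contra hcon
      push Not at hcon
      rw [Set.eq_univ_of_forall hcon, Cardinal.mk_univ] at hU
      exact absurd hU (not_le.mpr (sm_lt_mk i))
    obtain ⟨x, hx⟩ := hne
    have hsub : ({j | z j = gen j} \ (Finset.range (i + 1) : Set ℕ)) ⊆ {j | (f x).1 j = gen j} := by
      intro j hj
      by_contra hcon
      exact hx (Set.mem_iUnion.mpr ⟨⟨j, hj⟩, hcon⟩)
    exact hinf' ((f x).2.subset hsub)
  refine ⟨mkY z hfin, ?_⟩
  refine Set.Subset.antisymm ?_ ?_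
  · refine closure_minimal ?_ isClosed_closure
    rintro _ ⟨x, hx, rfl⟩
    refine specializes_iff_mem_closure.mp ?_
    have : (mkY z hfin).1 ⤳ (f x).1 := by
      rw [specializes_pi]
      intro j
      rw [specializes_iff_mem_closure]
      exact hz2 j x hx
    exact (Topology.IsInducing.subtypeVal.specializes_iff).mp this
  · refine closure_minimal ?_ isClosed_closure
    rintro _ rfl
    refine mem_closure_iff.mpr ?_
    intro U hU hzU
    obtain ⟨V, hV, rfl⟩ := isOpen_induced_iff.mp hU
    obtain ⟨I, u, hu, huV⟩ := isOpen_pi_iff.mp hV z hzU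
    -- finite intersections
    have hkey : ∀ I' : Finset ℕ, I' ⊆ I →
        (A ∩ ⋂ j ∈ I', (fun x => co j (f x)) ⁻¹' (u j)).Nonempty := by
      intro I'
      induction I' using Finset.induction_on with
      | empty =>
        intro _
        simpa using hA.nonempty
      | insert j I' hj ih =>
        intro hsub
        have h1 := ih (fun k hk => hsub (Finset.mem_insert_of_mem hk))
        have hjI : j ∈ I := hsub (Finset.mem_insert_self j I')
        have hop1 : IsOpen (⋂ k ∈ I', (fun x => co k (f x)) ⁻¹' (u k)) := by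
          refine isOpen_biInter_finset (fun k hk => ?_)
          exact (hu k (hsub (Finset.mem_insert_of_mem hk))).1.preimage (hfj k)
        have hop2 : IsOpen ((fun x => co j (f x)) ⁻¹' (u j)) := (hu j hjI).1.preimage (hfj j)
        have h2 : (A ∩ (fun x => co j (f x)) ⁻¹' (u j)).Nonempty := by
          obtain ⟨_, hw1, ⟨x, hxA, rfl⟩⟩ := mem_closure_iff.mp (hz1 j) (u j) (hu j hjI).1 (hu j hjI).2
          exact ⟨x, hxA, hw1⟩
        have h3 := hA.isPreirreducible _ _ hop2 hop1 h2 h1
        refine h3.mono ?_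
        rintro x ⟨hxA, hx1, hx2⟩
        refine ⟨hxA, ?_⟩
        simp only [Set.mem_iInter] at hx2 ⊢
        intro k hk
        rcases Finset.mem_insert.mp hk with rfl | hk
        · exact hx1
        · exact hx2 k hk
    obtain ⟨x, hxA, hx⟩ := hkey I (Finset.Subset.refl I)
    refine ⟨f x, ?_, ⟨x, hxA, rfl⟩⟩
    refine huV ?_
    intro j hj
    have := Set.mem_iInter₂.mp hx j hj
    exact this

/-- The class of spaces: all sober spaces and all spaces homeomorphic to `Y0`. -/
def K (Y : Type) [TopologicalSpace Y] : Prop :=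
  (T0Space Y ∧ QuasiSober Y) ∨ Nonempty (Y ≃ₜ Y0)

lemma K_T0 (Y : Type) [TopologicalSpace Y] (h : K Y) : T0Space Y := by
  rcases h with ⟨h, _⟩ | ⟨⟨e⟩⟩
  · exact h
  · exact e.symm.t0Space

theorem X_det (i : ℕ) (A : Set (X i)) (hA : IsIrreducible A) (Y : Type) [TopologicalSpace Y]
    (hY : K Y) (f : X i → Y) (hf : Continuous f) : ∃! y : Y, closure (f '' A) = closure {y} := by
  have hT0 := K_T0 Y hY
  have hex : ∃ y : Y, closure (f '' A) = closure {y} := by
    rcases hY with ⟨_, hs⟩ | ⟨⟨e⟩⟩
    · have h1 : IsIrreducible (closure (f '' A)) := (hA.image f hf.continuousOn).closure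
      obtain ⟨y, hy⟩ := QuasiSober.sober h1 isClosed_closure
      exact ⟨y, hy.symm⟩
    · obtain ⟨y, hy⟩ := Xi_to_Y0 i (fun x => e (f x)) (e.continuous.comp hf) A hA
      refine ⟨e.symm y, ?_⟩
      have h1 : e '' closure (f '' A) = e '' closure {e.symm y} := by
        rw [e.image_closure, e.image_closure, Set.image_singleton, e.apply_symm_apply, ← hy,
          Set.image_image]
      exact e.injective.image_injective h1
  obtain ⟨y, hy⟩ := hex
  refine ⟨y, hy, ?_⟩
  intro y' hy'
  have h1 : closure ({y'} : Set Y) = closure {y} := hy'.symm.trans hy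
  exact (inseparable_iff_closure_eq.mpr h1).eq

end

end Pool.Agent.Helper869.KDet
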